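import Pool.Agent.H712R2.MA.Stm

/-!
# Project KF (Kalai's flag conjecture), part A: the Funk-Mahler inequality

`Tilt` is the class of lenses needed on the real side; `hT t` is the conformal map of the
disc onto the tilted lens.  All statements of tasks are in `Stm.lean`.
-/

set_option autoImplicit false

noncomputable section

open MeasureTheory Filter Topology H712MA
open scoped BigOperators Matrix ENNReal

namespace KF175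

/-- `h_t(z) = (4t/π) Σ_j z^(2j+1) / ((2j+1)(2j+1+it))`, on the closed unit disc -/
def hT (t : ℝ) (z : ℂ) : ℂ :=
  ((4 * t / Real.pi : ℝ) : ℂ) * ∑' j : ℕ, z ^ (2 * j + 1) /
    (((2 * j + 1 : ℕ) : ℂ) * (((2 * j + 1 : ℕ) : ℂ) + (t : ℂ) * Complex.I))

/-- its derivative `h_t'(z) = (4t/π) Σ_j z^(2j) / (2j+1+it)`, on the open unit disc -/
def hdT (t : ℝ) (z : ℂ) : ℂ :=
  ((4 * t / Real.pi : ℝ) : ℂ) * ∑' j : ℕ, z ^ (2 * j) /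
    (((2 * j + 1 : ℕ) : ℂ) + (t : ℂ) * Complex.I)

/-- the strip coordinate: `z ↦ log ((1+z)/(1-z))` maps the disc onto `|Im| < π/2` -/
def AA (z : ℂ) : ℂ := Complex.log ((1 + z) / (1 - z))

/-- `λ_t = tanh (π t / 2)`, so that `(1+λ)/(1-λ) = exp (π t)` -/
def lam (t : ℝ) : ℝ := Real.tanh (Real.pi * t / 2)

/-- `G(p) = Im (e(p)/e'(p))`; for `p = h(z)` this is `Im (z h'(z))` -/
def Gf (L : Lens) (p : ℂ) : ℝ := (L.e p / deriv L.e p).im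

open Classical in
/-- the normalised `G`: `G/(t(1-x))` where `G > 0`, `-G/(t(1+x))` elsewhere -/
def qn (t : ℝ) (L : Lens) (p : ℂ) : ℝ :=
  if 0 < Gf L p then Gf L p / (t * (1 - p.re)) else - Gf L p / (t * (1 + p.re))

/-- tilted lenses -/
structure Tilt (t lm : ℝ) (L : Lens) : Prop where
  t0 : 0 < t
  l0 : 0 < lm
  l1 : lm < 1
  meas : Measurable L.e
  re : ∀ p ∈ L.W, |p.re| ≤ lm
  up : ∀ p ∈ L.W, Gf L p ≤ t * (1 - p.re)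
  dn : ∀ p ∈ L.W, - Gf L p ≤ t * (1 + p.re)
  mono : ∀ x y y' : ℝ, (⟨x, y⟩ : ℂ) ∈ L.W → (⟨x, y'⟩ : ℂ) ∈ L.W → y < y' →
    Gf L ⟨x, y⟩ < Gf L ⟨x, y'⟩
  conv : ∀ x y y' s : ℝ, (⟨x, y⟩ : ℂ) ∈ L.W → (⟨x, y'⟩ : ℂ) ∈ L.W → y ≤ s → s ≤ y' →
    (⟨x, s⟩ : ℂ) ∈ L.W
  mass : ∀ m : ℕ, 1 ≤ m → ∫⁻ p, ENNReal.ofReal (af L m p) = ENNReal.ofReal (m * Real.pi)
  conc : Tendsto (fun m : ℕ => (∫⁻ p, ENNReal.ofReal (af L m p * (1 - qn t L p))) / (m : ℝ≥0∞))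
    atTop (𝓝 0)

/-- the polar of `{|l_k| ≤ 1}` with respect to the point `x` -/
def PA {κ : Type} {n : ℕ} (l : κ → Fin n → ℝ) (x : Fin n → ℝ) : Set (Fin n → ℝ) :=
  {y | ∀ x' : Fin n → ℝ, (∀ k, |l k ⬝ᵥ x'| ≤ 1) → (x' - x) ⬝ᵥ y ≤ 1}

/-- data of a conformal map of the disc -/
structure Conf (h hd : ℂ → ℂ) : Prop where
  der : ∀ z : ℂ, ‖z‖ < 1 → HasDerivAt h (hd z) z
  inj : Set.InjOn h (Metric.ball 0 1)
  zero : h 0 = 0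
  up : ∃ C : ℝ, ∀ z : ℂ, ‖z‖ < 1 → ‖h z‖ ≤ C * ‖z‖
  low : ∃ c : ℝ, 0 < c ∧ ∀ z : ℂ, ‖z‖ < 1 → c ≤ ‖hd z‖

/-- `L` is the lens given by the conformal map `h` (up to a rotation `u` of the disc) -/
structure Rel (h hd : ℂ → ℂ) (L : Lens) : Prop where
  W : L.W = h '' Metric.ball 0 1
  meas : Measurable L.e
  e : ∃ u : ℂ, ‖u‖ = 1 ∧ ∀ z : ℂ, ‖z‖ < 1 → L.e (h z) = u * z ∧ deriv L.e (h z) = u / hd z

end KF175
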