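import Mathlib

/-!
# Project KF (Kalai's flag conjecture), part B: Funk volume of polytopes and flags
-/

set_option autoImplicit false

noncomputable section

open MeasureTheory Filter Topology Pointwise
open scoped BigOperators Matrix ENNReal

namespace KF175

/-- the polar of `K` with respect to the point `x` -/
def PolAt {n : ℕ} (K : Set (Fin n → ℝ)) (x : Fin n → ℝ) : Set (Fin n → ℝ) :=
  {y | ∀ z ∈ K, (z - x) ⬝ᵥ y ≤ 1}

/-- the Funk volume of `(1-ε) K` -/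
def FV {n : ℕ} (K : Set (Fin n → ℝ)) (ε : ℝ) : ℝ≥0∞ :=
  ∫⁻ x in (1 - ε) • K, volume (PolAt K x)

/-- `f ε ≤ (a + o(1)) (log (1/ε) + O(1))^n` -/
def Asy (n : ℕ) (a : ℝ) (f : ℝ → ℝ≥0∞) : Prop :=
  ∀ η : ℝ, 0 < η → ∃ C : ℝ, 0 ≤ C ∧ ∀ ε : ℝ, 0 < ε → ε < 1 →
    f ε ≤ ENNReal.ofReal ((a + η) * (Real.log (1 / ε) + C) ^ n)

/-- the section of `P` at height one (in the coordinate `0`) -/
def Sec {n : ℕ} (P : Set (Fin (n + 1) → ℝ)) : Set (Fin n → ℝ) :=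
  {w | Matrix.vecCons (1 : ℝ) w ∈ P}

/-- the cone over the section, up to height `1 - ε` -/
def Cone {n : ℕ} (P : Set (Fin (n + 1) → ℝ)) (ε : ℝ) : Set (Fin (n + 1) → ℝ) :=
  {x | 0 < x 0 ∧ x 0 ≤ 1 - ε ∧ (x 0)⁻¹ • Matrix.vecTail x ∈ Sec P}

/-- convex bodies with the origin in the interior -/
structure CB {n : ℕ} (K : Set (Fin n → ℝ)) : Prop where
  conv : Convex ℝ K
  comp : IsCompact K
  zero : (0 : Fin n → ℝ) ∈ interior K

/-- the (normals of the) facets of `conv S`: the vertices of the polar -/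
def Fct {n : ℕ} (S : Finset (Fin n → ℝ)) : Set (Fin n → ℝ) :=
  {φ | (∀ v ∈ S, φ ⬝ᵥ v ≤ 1) ∧ Submodule.span ℝ {v | v ∈ S ∧ φ ⬝ᵥ v = 1} = ⊤}

/-- the convex hull of a finite set -/
def Hul {n : ℕ} (S : Finset (Fin n → ℝ)) : Set (Fin n → ℝ) :=
  convexHull ℝ (S : Set (Fin n → ℝ))

/-- complete flags of exposed faces -/
def Flags {n : ℕ} (P : Set (Fin n → ℝ)) : Set (Fin n → Set (Fin n → ℝ)) :=
  {f | Monotone f ∧ ∀ i : Fin n, (f i).Nonempty ∧ IsExposed ℝ P (f i) ∧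
    Module.finrank ℝ (vectorSpan ℝ (f i)) = (i : ℕ)}

end KF175
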