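import Pool.Agent.W175.KF.Defs

/-!
# Project KF, part A: statements of the tasks

`S_FM` is the Funk-Mahler inequality
`(2 log ((1+λ)/(1-λ)))^n ≤ n! ∫_{λK} |(K-x)°| dx` for centrally symmetric polytopes `K`
(`λ = tanh (πt/2)`, so that `2πt = 2 log ((1+λ)/(1-λ))`).
-/

set_option autoImplicit false

noncomputable section

open MeasureTheory Filter Topology H712MA
open scoped BigOperators Matrix ENNReal

namespace KF175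

/-- SER: power series facts about `h_t` -/
def S_SER : Prop := ∀ t : ℝ, 0 < t →
  (∀ z : ℂ, ‖z‖ < 1 → HasDerivAt (hT t) (hdT t z) z) ∧
  (∀ z : ℂ, ‖z‖ < 1 → z * hdT t z = t * ((2 / Real.pi : ℝ) * AA z - Complex.I * hT t z)) ∧
  ContinuousOn (hT t) (Metric.closedBall 0 1) ∧
  (∃ C : ℝ, ∀ z : ℂ, ‖z‖ ≤ 1 → ‖hT t z‖ ≤ C * ‖z‖) ∧
  (∀ z : ℂ, hT t (-z) = - hT t z) ∧
  (∃ q : ℂ → ℂ, ContinuousOn q (Metric.closedBall 0 1) ∧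
    ∀ z : ℂ, ‖z‖ < 1 → q z = (1 - z ^ 2) * hdT t z)

/-- BDV: boundary values of `Re h_t` on the upper half circle -/
def S_BDV : Prop := ∀ t : ℝ, 0 < t → ∀ θ : ℝ, 0 ≤ θ → θ ≤ Real.pi →
  (hT t (Complex.exp (θ * Complex.I))).re = 1 - (1 - lam t) * Real.exp (t * θ)

/-- MAX: `|Re h_t| ≤ λ_t` on the closed disc, strictly inside -/
def S_MAX : Prop := ∀ t : ℝ, 0 < t →
  (∀ z : ℂ, ‖z‖ ≤ 1 → |(hT t z).re| ≤ lam t) ∧ (∀ z : ℂ, ‖z‖ < 1 → |(hT t z).re| < lam t)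

/-- STR: the strip coordinate -/
def S_STR : Prop :=
  (∀ z : ℂ, ‖z‖ < 1 → |(AA z).im| < Real.pi / 2) ∧
  (∀ z : ℂ, ‖z‖ < 1 → HasDerivAt AA (2 / (1 - z ^ 2)) z) ∧
  (∀ w : ℂ, |w.im| < Real.pi / 2 →
    ‖(Complex.exp w - 1) / (Complex.exp w + 1)‖ < 1 ∧
      AA ((Complex.exp w - 1) / (Complex.exp w + 1)) = w) ∧
  (∀ z : ℂ, ‖z‖ < 1 → (Complex.exp (AA z) - 1) / (Complex.exp (AA z) + 1) = z) ∧
  ContinuousOn AA (Metric.closedBall 0 1 \ {1, -1}) ∧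
  (∀ θ : ℝ, 0 < θ → θ < Real.pi → (AA (Complex.exp (θ * Complex.I))).im = Real.pi / 2) ∧
  (∀ θ : ℝ, -Real.pi < θ → θ < 0 → (AA (Complex.exp (θ * Complex.I))).im = - (Real.pi / 2)) ∧
  (∀ M : ℝ, ∃ δ : ℝ, 0 < δ ∧ ∀ z : ℂ, ‖z‖ ≤ 1 → z ≠ 1 → z ≠ -1 →
    (‖z - 1‖ < δ ∨ ‖z + 1‖ < δ) → M ≤ |(AA z).re|)

/-- REP: `Re ((1-z²) h_t'(z)) > 0` -/
def S_REP : Prop := ∀ t : ℝ, 0 < t → ∀ z : ℂ, ‖z‖ < 1 → 0 < ((1 - z ^ 2) * hdT t z).re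

/-- LOW: `|h_t'|` is bounded below -/
def S_LOW : Prop := ∀ t : ℝ, 0 < t → ∃ c : ℝ, 0 < c ∧ ∀ z : ℂ, ‖z‖ < 1 → c ≤ ‖hdT t z‖

/-- VER: `h_t` is injective and the strip coordinate has increasing imaginary part along
vertical lines of the lens -/
def S_VER : Prop := ∀ t : ℝ, 0 < t →
  Set.InjOn (hT t) (Metric.ball 0 1) ∧
  ∀ z w : ℂ, ‖z‖ < 1 → ‖w‖ < 1 → (hT t z).re = (hT t w).re → (hT t z).im < (hT t w).im →
    (AA z).im < (AA w).im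

/-- CNV: the lens is convex in the vertical direction -/
def S_CNV : Prop := ∀ t : ℝ, 0 < t → ∀ z w : ℂ, ‖z‖ < 1 → ‖w‖ < 1 →
  (hT t z).re = (hT t w).re → ∀ s : ℝ, (hT t z).im ≤ s → s ≤ (hT t w).im →
    ∃ v : ℂ, ‖v‖ < 1 ∧ hT t v = ⟨(hT t z).re, s⟩

/-- LEN: the lens of a conformal map -/
def S_LEN : Prop := ∀ h hd : ℂ → ℂ, Conf h hd → ∃ L : Lens, Rel h hd L

/-- INT: total mass and concentration at the boundary for the lens of a conformal map -/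
def S_INT : Prop := ∀ (h hd : ℂ → ℂ) (L : Lens), Conf h hd → Rel h hd L →
  (∀ m : ℕ, 1 ≤ m → ∫⁻ p, ENNReal.ofReal (af L m p) = ENNReal.ofReal (m * Real.pi)) ∧
  ∀ Q : ℂ → ℝ, Measurable Q → (∀ z : ℂ, ‖z‖ < 1 → 0 ≤ Q (h z) ∧ Q (h z) ≤ 1) →
    (∀ θ : ℝ, Real.sin θ ≠ 0 →
      Tendsto (fun r : ℝ => Q (h ((r : ℂ) * Complex.exp (θ * Complex.I)))) (𝓝[<] 1) (𝓝 1)) →
    Tendsto (fun m : ℕ => (∫⁻ p, ENNReal.ofReal (af L m p * (1 - Q p))) / (m : ℝ≥0∞))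
      atTop (𝓝 0)

/-- TLT: tilted lenses exist (assembly of the one variable part) -/
def S_TLT : Prop := ∀ t : ℝ, 0 < t → ∃ L : Lens, Tilt t (lam t) L

/-- DER: derivative of `|e|^(2m)` along vertical lines, for any lens -/
def S_DER : Prop := ∀ (L : Lens) (m : ℕ), 1 ≤ m → ∀ x y : ℝ, (⟨x, y⟩ : ℂ) ∈ L.W →
  HasDerivAt (fun s : ℝ => ‖gf L m ⟨x, s⟩‖ ^ 2) (2 / m * af L m ⟨x, y⟩ * Gf L ⟨x, y⟩) y

/-- RRA: the real side for fixed `x` -/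
def S_RRA : Prop := ∀ (t lm : ℝ) (L : Lens), Tilt t lm L →
  ∀ (κ : Type) [Fintype κ] (n : ℕ) (m : ℕ), 1 ≤ m → ∀ (l : κ → Fin n → ℝ), Spans l →
    ∀ x : Fin n → ℝ,
    ∫⁻ u in {u : Fin n → ℝ | VV L m l (x, u) < 1},
        ENNReal.ofReal (DS l (fun k => 2 * t * qn t L (pk (l k) (x, u)) *
          af L m (pk (l k) (x, u)))) ≤
      (n.factorial : ℝ≥0∞) * (m : ℝ≥0∞) ^ n * volume (PA l x)

/-- RRB: integrated over `x` -/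
def S_RRB : Prop := ∀ (t lm : ℝ) (L : Lens), Tilt t lm L →
  ∀ (κ : Type) [Fintype κ] (n : ℕ) (m : ℕ), 1 ≤ m → ∀ (l : κ → Fin n → ℝ), Spans l →
    ∫⁻ z in {z : E2 n | VV L m l z < 1},
        ENNReal.ofReal (DS l (fun k => 2 * t * qn t L (pk (l k) z) * af L m (pk (l k) z))) ≤
      (n.factorial : ℝ≥0∞) * (m : ℝ≥0∞) ^ n *
        ∫⁻ x in {x : Fin n → ℝ | ∀ k, |l k ⬝ᵥ x| ≤ lm}, volume (PA l x)

/-- EET: the error term -/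
def S_EET : Prop := ∀ (t lm : ℝ) (L : Lens), Tilt t lm L →
  ∀ (κ : Type) [Fintype κ] (r : ℕ) (m : ℕ), 1 ≤ m → ∀ (l : κ → Fin (r + 1) → ℝ),
    ∫⁻ z in {z : E2 (r + 1) | VV L m l z < 1}, ENNReal.ofReal (DS l (fun k => af L m (pk (l k) z))) ≤
      (∫⁻ z in {z : E2 (r + 1) | VV L m l z < 1},
        ENNReal.ofReal (DS l (fun k => qn t L (pk (l k) z) * af L m (pk (l k) z)))) +
      ((Fintype.card κ : ℝ≥0∞) ^ (r + 1) * ((r + 1 : ℕ) : ℝ≥0∞)) *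
        (ENNReal.ofReal (m * Real.pi) ^ r * ∫⁻ p, ENNReal.ofReal (af L m p * (1 - qn t L p)))

/-- ZZT: Funk-Mahler from a tilted lens -/
def S_ZZT : Prop := ∀ (t lm : ℝ) (L : Lens), Tilt t lm L →
  ∀ (κ : Type) [Fintype κ] (n : ℕ) (l : κ → Fin n → ℝ), Spans l →
    ENNReal.ofReal ((2 * Real.pi * t) ^ n) ≤ (n.factorial : ℝ≥0∞) *
      ∫⁻ x in {x : Fin n → ℝ | ∀ k, |l k ⬝ᵥ x| ≤ lm}, volume (PA l x)

/-- FM: the Funk-Mahler inequality for centrally symmetric polytopes -/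
def S_FM : Prop := ∀ t : ℝ, 0 < t → ∀ (κ : Type) [Fintype κ] (n : ℕ) (l : κ → Fin n → ℝ), Spans l →
    ENNReal.ofReal ((2 * Real.pi * t) ^ n) ≤ (n.factorial : ℝ≥0∞) *
      ∫⁻ x in {x : Fin n → ℝ | ∀ k, |l k ⬝ᵥ x| ≤ lam t}, volume (PA l x)

end KF175
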