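import Pool.Agent.W175.KF.Defs2

/-!
# Project KF, part B: statements of the tasks
-/

set_option autoImplicit false

noncomputable section

open MeasureTheory Filter Topology Pointwise
open scoped BigOperators Matrix ENNReal

namespace KF175

/-- MEAS: measurability of the volume of the polar -/
def S_MEAS : Prop := ∀ (n : ℕ) (K : Set (Fin n → ℝ)), Measurable (fun x => volume (PolAt K x))

/-- PT: the pointwise estimate near a facet `{x_0 = 1}` -/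
def S_PT : Prop := ∀ (n : ℕ) (P : Set (Fin (n + 1) → ℝ)) (r R θ s : ℝ),
  0 < r → r ≤ R → 0 < θ → θ < 1 → 0 < s → s < 1 →
  (∀ b : Fin n → ℝ, ‖b‖ ≤ r → Matrix.vecCons (0 : ℝ) b ∈ P) →
  (∀ w ∈ Sec P, ‖w‖ ≤ R) →
  ∀ w ∈ Sec P, volume (PolAt P ((1 - s) • Matrix.vecCons (1 : ℝ) w)) ≤
    ENNReal.ofReal (1 / ((n + 1) * (1 - θ) * s * (1 - s) ^ (n + 1) * (1 - θ * s) ^ n)) *
      volume (PolAt (Sec P) ((1 - θ * r * s / R) • w))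

/-- CONE: polar coordinates in a cone -/
def S_CONE : Prop := ∀ (n : ℕ) (P : Set (Fin (n + 1) → ℝ)) (ε : ℝ), 0 < ε → ε < 1 →
  MeasurableSet (Sec P) → ∀ F : (Fin (n + 1) → ℝ) → ℝ≥0∞, Measurable F →
    ∫⁻ x in Cone P ε, F x = ∫⁻ s in Set.Ico ε 1, ENNReal.ofReal ((1 - s) ^ n) *
      ∫⁻ w in Sec P, F ((1 - s) • Matrix.vecCons (1 : ℝ) w)

/-- LOGI: the one dimensional integral -/
def S_LOGI : Prop := ∀ (n : ℕ) (ε C : ℝ), 0 < ε → ε < 1 → 0 ≤ C →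
  ∫⁻ s in Set.Ico ε 1, ENNReal.ofReal ((Real.log (1 / s) + C) ^ n / s) ≤
    ENNReal.ofReal ((Real.log (1 / ε) + C) ^ (n + 1) / (n + 1))

/-- FAC: the asymptotic contribution of one facet -/
def S_FAC : Prop := ∀ (n : ℕ) (P : Set (Fin (n + 1) → ℝ)) (a : ℝ), 0 ≤ a →
  CB P → (∀ x ∈ P, x 0 ≤ 1) → CB (Sec P) → Asy n a (FV (Sec P)) →
    Asy (n + 1) (a / ((n : ℝ) + 1) ^ 2) (fun ε => ∫⁻ x in Cone P ε, volume (PolAt P x))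

/-- FFIN: finitely many facets -/
def S_FFIN : Prop := ∀ (n : ℕ) (S : Finset (Fin n → ℝ)), (Fct S).Finite

/-- FCOV: the cones over the facets cover -/
def S_FCOV : Prop := ∀ (n : ℕ) (S : Finset (Fin n → ℝ)), (0 : Fin n → ℝ) ∈ interior (Hul S) →
  ∀ x : Fin n → ℝ, x ≠ 0 → ∃ φ ∈ Fct S, 0 < φ ⬝ᵥ x ∧
    (φ ⬝ᵥ x)⁻¹ • x ∈ convexHull ℝ {v | v ∈ S ∧ φ ⬝ᵥ v = 1}

/-- FREP: the halfspace representation -/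
def S_FREP : Prop := ∀ (n : ℕ) (S : Finset (Fin n → ℝ)), (0 : Fin n → ℝ) ∈ interior (Hul S) →
  Hul S = {x | ∀ φ ∈ Fct S, φ ⬝ᵥ x ≤ 1}

/-- STR2: straightening a facet -/
def S_STR2 : Prop := ∀ (n : ℕ) (S : Finset (Fin (n + 1) → ℝ)),
  (0 : Fin (n + 1) → ℝ) ∈ interior (Hul S) → ∀ φ ∈ Fct S,
    ∃ T : (Fin (n + 1) → ℝ) ≃ₗ[ℝ] (Fin (n + 1) → ℝ), (∀ x, T x 0 = φ ⬝ᵥ x) ∧
      CB (T '' Hul S) ∧ CB (Sec (T '' Hul S)) ∧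
      ∃ S' : Finset (Fin n → ℝ), Sec (T '' Hul S) = Hul S'

/-- INV: linear invariance -/
def S_INV : Prop := ∀ (n : ℕ) (P : Set (Fin (n + 1) → ℝ)) (φ : Fin (n + 1) → ℝ)
  (T : (Fin (n + 1) → ℝ) ≃ₗ[ℝ] (Fin (n + 1) → ℝ)) (ε : ℝ), (∀ x, T x 0 = φ ⬝ᵥ x) →
    IsCompact P →
    ∫⁻ x in {x | 0 < φ ⬝ᵥ x ∧ φ ⬝ᵥ x ≤ 1 - ε ∧ (φ ⬝ᵥ x)⁻¹ • x ∈ P}, volume (PolAt P x) =
      ∫⁻ x in Cone (T '' P) ε, volume (PolAt (T '' P) x)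

/-- EXP: an exposed face of a facet is an exposed face -/
def S_EXP : Prop := ∀ (n : ℕ) (S : Finset (Fin n → ℝ)) (φ : Fin n → ℝ), (∀ v ∈ S, φ ⬝ᵥ v ≤ 1) →
  ∀ B : Set (Fin n → ℝ), B.Nonempty → IsExposed ℝ {x | x ∈ Hul S ∧ φ ⬝ᵥ x = 1} B →
    IsExposed ℝ (Hul S) B

/-- DIM: dimension of a facet -/
def S_DIM : Prop := ∀ (n : ℕ) (S : Finset (Fin (n + 1) → ℝ)), ∀ φ ∈ Fct S,
  {x | x ∈ Hul S ∧ φ ⬝ᵥ x = 1} = convexHull ℝ {v | v ∈ S ∧ φ ⬝ᵥ v = 1} ∧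
  {x | x ∈ Hul S ∧ φ ⬝ᵥ x = 1}.Nonempty ∧
  IsExposed ℝ (Hul S) {x | x ∈ Hul S ∧ φ ⬝ᵥ x = 1} ∧
  Module.finrank ℝ (vectorSpan ℝ {x | x ∈ Hul S ∧ φ ⬝ᵥ x = 1}) = n

/-- FLG: flags of a facet extend to flags of the polytope -/
def S_FLG : Prop := ∀ (n : ℕ) (S : Finset (Fin (n + 1) → ℝ)), ∀ φ ∈ Fct S,
  ∀ T : (Fin (n + 1) → ℝ) ≃ₗ[ℝ] (Fin (n + 1) → ℝ), (∀ x, T x 0 = φ ⬝ᵥ x) →
    (Flags (Sec (T '' Hul S))).encard ≤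
      {f | f ∈ Flags (Hul S) ∧ f (Fin.last n) = {x | x ∈ Hul S ∧ φ ⬝ᵥ x = 1}}.encard

/-- ASY: the asymptotics of the Funk volume -/
def S_ASY : Prop := ∀ (n : ℕ) (S : Finset (Fin n → ℝ)) (N : ℕ),
  (0 : Fin n → ℝ) ∈ interior (Hul S) → (Flags (Hul S)).encard ≤ N →
    Asy n ((N : ℝ) / (n.factorial : ℝ) ^ 2) (FV (Hul S))

/-- MAIN: Kalai's flag conjecture in coordinates -/
def S_MAIN : Prop := ∀ (n : ℕ) (S : Finset (Fin n → ℝ)),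
  (0 : Fin n → ℝ) ∈ interior (Hul S) → (∀ x ∈ Hul S, -x ∈ Hul S) →
    ((2 ^ n * n.factorial : ℕ) : ℕ∞) ≤ (Flags (Hul S)).encard

end KF175
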